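import Mathlib

section

/-!
Elementary data for the counterexample: points on the unit circle converging to `(1,0)` and
staircase functions.
-/

set_option autoImplicit false

namespace Pool.Agent.Lib.MP_ec292c_an

open Filter Topology

noncomputable section

/-- half-angle tangents: `tt 0 = 0`, `tt n = 2^{-n}` for `n ≥ 1` -/
def tt (n : ℕ) : ℝ := if n = 0 then 0 else (1 / 2) ^ n

def cc (n : ℕ) : ℝ := (1 - tt n ^ 2) / (1 + tt n ^ 2)

def ss (n : ℕ) : ℝ := 2 * tt n / (1 + tt n ^ 2)

lemma tt_zero : tt 0 = 0 := by simp [tt]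

lemma tt_of_pos {n : ℕ} (h : 1 ≤ n) : tt n = (1 / 2) ^ n := by
  unfold tt; rw [if_neg (by omega)]

lemma tt_nonneg (n : ℕ) : 0 ≤ tt n := by
  unfold tt; split_ifs <;> positivity

lemma tt_le (n : ℕ) : tt n ≤ 1 / 2 := by
  unfold tt
  split_ifs with h
  · norm_num
  · calc ((1 : ℝ) / 2) ^ n ≤ (1 / 2) ^ 1 :=
        pow_le_pow_of_le_one (by norm_num) (by norm_num) (by omega)
      _ = 1 / 2 := by norm_num

lemma tt_pos {n : ℕ} (h : 1 ≤ n) : 0 < tt n := by
  rw [tt_of_pos h]; positivity

lemma tt_pred {n : ℕ} (h : 2 ≤ n) : tt (n - 1) = 2 * tt n := by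
  rw [tt_of_pos (by omega : 1 ≤ n - 1), tt_of_pos (by omega : 1 ≤ n)]
  obtain ⟨m, rfl⟩ : ∃ m, n = m + 1 := ⟨n - 1, by omega⟩
  simp only [Nat.add_sub_cancel, pow_succ]
  ring

lemma tt_le_quarter {n : ℕ} (h : 2 ≤ n) : tt n ≤ 1 / 4 := by
  rw [tt_of_pos (by omega)]
  calc ((1 : ℝ) / 2) ^ n ≤ (1 / 2) ^ 2 :=
        pow_le_pow_of_le_one (by norm_num) (by norm_num) h
      _ = 1 / 4 := by norm_num

lemma den_pos (n : ℕ) : 0 < 1 + tt n ^ 2 := by positivity

lemma cc_zero : cc 0 = 1 := by simp [cc, tt_zero]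

lemma ss_zero : ss 0 = 0 := by simp [ss, tt_zero]

lemma cc_sq_add (n : ℕ) : cc n ^ 2 + ss n ^ 2 = 1 := by
  have := den_pos n
  unfold cc ss
  field_simp
  ring

lemma cc_nonneg (n : ℕ) : 0 ≤ cc n := by
  unfold cc
  apply div_nonneg _ (den_pos n).le
  have h1 := tt_nonneg n
  have h2 := tt_le n
  nlinarith

lemma cc_le_one (n : ℕ) : cc n ≤ 1 := by
  have := cc_sq_add n
  nlinarith [sq_nonneg (ss n), cc_nonneg n]

lemma ss_nonneg (n : ℕ) : 0 ≤ ss n := by
  unfold ss
  exact div_nonneg (by have := tt_nonneg n; linarith) (den_pos n).le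

lemma ss_le_one (n : ℕ) : ss n ≤ 1 := by
  have := cc_sq_add n
  nlinarith [sq_nonneg (cc n), ss_nonneg n]

lemma tt_tendsto : Tendsto tt atTop (𝓝 0) := by
  have h : Tendsto (fun n : ℕ => ((1 : ℝ) / 2) ^ n) atTop (𝓝 0) :=
    tendsto_pow_atTop_nhds_zero_of_lt_one (by norm_num) (by norm_num)
  apply h.congr'
  filter_upwards [eventually_ge_atTop 1] with n hn
  exact (tt_of_pos hn).symm

lemma cc_tendsto : Tendsto cc atTop (𝓝 1) := by
  have h := tt_tendsto
  have : Tendsto (fun n => (1 - tt n ^ 2) / (1 + tt n ^ 2)) atTop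
      (𝓝 ((1 - 0 ^ 2) / (1 + 0 ^ 2))) := by
    apply Tendsto.div
    · exact (h.pow 2).const_sub 1
    · exact (h.pow 2).const_add 1
    · norm_num
  have e : cc = fun n => (1 - tt n ^ 2) / (1 + tt n ^ 2) := rfl
  rw [e]
  simpa using this

lemma ss_tendsto : Tendsto ss atTop (𝓝 0) := by
  have h := tt_tendsto
  have : Tendsto (fun n => (2 * tt n) / (1 + tt n ^ 2)) atTop
      (𝓝 ((2 * 0) / (1 + 0 ^ 2))) := by
    apply Tendsto.div
    · exact h.const_mul 2
    · exact (h.pow 2).const_add 1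
    · norm_num
  have e : ss = fun n => (2 * tt n) / (1 + tt n ^ 2) := rfl
  rw [e]
  simpa using this

lemma ss_pos {n : ℕ} (h : 1 ≤ n) : 0 < ss n := by
  unfold ss
  exact div_pos (by have := tt_pos h; linarith) (den_pos n)

/-- `s_m ≤ (17/32) s_k` for `2 ≤ k < m`. -/
lemma ss_lt {k m : ℕ} (hk : 2 ≤ k) (hm : k < m) : ss m ≤ 17 / 32 * ss k := by
  have h1 : tt m ≤ tt k / 2 := by
    rw [tt_of_pos (by omega), tt_of_pos (by omega)]
    calc ((1 : ℝ) / 2) ^ m ≤ (1 / 2) ^ (k + 1) :=
          pow_le_pow_of_le_one (by norm_num) (by norm_num) (by omega)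
      _ = (1 / 2) ^ k / 2 := by ring
  have h2 := tt_le_quarter hk
  have h3 := tt_pos (by omega : 1 ≤ k)
  have h4 := tt_nonneg m
  have h5 : ss m ≤ 2 * tt m := by
    unfold ss
    rw [div_le_iff₀ (den_pos m)]
    nlinarith [sq_nonneg (tt m)]
  have h6 : 32 / 17 * tt k ≤ ss k := by
    unfold ss
    rw [le_div_iff₀ (den_pos k)]
    nlinarith
  linarith

/-- `s_m ≥ (16/17) s_k` for `2 ≤ m ≤ k`. -/
lemma ss_ge {k m : ℕ} (hm : 2 ≤ m) (hk : m ≤ k) : 16 / 17 * ss k ≤ ss m := by
  have h1 : tt k ≤ tt m := by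
    rw [tt_of_pos (by omega), tt_of_pos (by omega)]
    exact pow_le_pow_of_le_one (by norm_num) (by norm_num) hk
  have h2 := tt_le_quarter hm
  have h3 := tt_pos (by omega : 1 ≤ m)
  have h4 := tt_nonneg k
  have h5 : ss k ≤ 2 * tt k := by
    unfold ss
    rw [div_le_iff₀ (den_pos k)]
    nlinarith [sq_nonneg (tt k)]
  have h6 : 32 / 17 * tt m ≤ ss m := by
    unfold ss
    rw [le_div_iff₀ (den_pos m)]
    nlinarith
  linarith

/-- the staircase -/
def gg (y : ℝ) : ℝ := (⌊y⌋ : ℝ) / 4 + max 0 (Int.fract y - 3 / 4)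

lemma gg_plateau (n : ℤ) (y : ℝ) (h1 : (n : ℝ) ≤ y) (h2 : y ≤ n + 3 / 4) : gg y = n / 4 := by
  have hf : ⌊y⌋ = n := by
    rw [Int.floor_eq_iff]
    constructor <;> linarith
  unfold gg
  rw [hf, Int.fract, hf, max_eq_left (by linarith)]
  ring

lemma gg_sub_nonneg {y y' : ℝ} (h : y ≤ y') : 0 ≤ gg y' - gg y := by
  unfold gg
  have hn : ⌊y⌋ ≤ ⌊y'⌋ := Int.floor_le_floor h
  have e1 : y = ⌊y⌋ + Int.fract y := (Int.floor_add_fract y).symm
  have e2 : y' = ⌊y'⌋ + Int.fract y' := (Int.floor_add_fract y').symm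
  have f1 := Int.fract_lt_one y
  have f2 := Int.fract_nonneg y'
  rcases eq_or_lt_of_le hn with he | hlt
  · have : Int.fract y ≤ Int.fract y' := by
      have : (⌊y⌋ : ℝ) = ⌊y'⌋ := by rw [he]
      linarith
    have h3 : max 0 (Int.fract y - 3 / 4) ≤ max 0 (Int.fract y' - 3 / 4) :=
      max_le_max le_rfl (by linarith)
    rw [he]
    linarith
  · have h3 : (⌊y⌋ : ℝ) + 1 ≤ ⌊y'⌋ := by exact_mod_cast hlt
    have h4 : max 0 (Int.fract y - 3 / 4) ≤ 1 / 4 := max_le (by norm_num) (by linarith)
    have h5 : 0 ≤ max 0 (Int.fract y' - 3 / 4) := le_max_left _ _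
    linarith

lemma gg_sub_le {y y' : ℝ} (h : y ≤ y') : gg y' - gg y ≤ y' - y := by
  unfold gg
  have hn : ⌊y⌋ ≤ ⌊y'⌋ := Int.floor_le_floor h
  have e1 : y = ⌊y⌋ + Int.fract y := (Int.floor_add_fract y).symm
  have e2 : y' = ⌊y'⌋ + Int.fract y' := (Int.floor_add_fract y').symm
  have f1 := Int.fract_lt_one y
  have f0 := Int.fract_nonneg y
  have f2 := Int.fract_nonneg y'
  rcases eq_or_lt_of_le hn with he | hlt
  · have he' : (⌊y⌋ : ℝ) = ⌊y'⌋ := by rw [he]
    have : Int.fract y ≤ Int.fract y' := by linarith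
    rcases le_total (Int.fract y' - 3 / 4) 0 with h1 | h1
    · rw [max_eq_left h1]
      have := le_max_left 0 (Int.fract y - 3 / 4)
      linarith
    · rw [max_eq_right h1]
      have := le_max_right 0 (Int.fract y - 3 / 4)
      linarith
  · have h3 : (⌊y⌋ : ℝ) + 1 ≤ ⌊y'⌋ := by exact_mod_cast hlt
    have h4 : max 0 (Int.fract y' - 3 / 4) ≤ Int.fract y' := max_le f2 (by linarith)
    have h5 : Int.fract y - 3 / 4 ≤ max 0 (Int.fract y - 3 / 4) := le_max_right _ _
    linarith

lemma gg_two {y y' : ℝ} (h : y ≤ y') (h2 : y' ≤ y + 1 / 4) :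
    gg y' = gg y ∨ gg (y' + 1 / 2) = gg (y + 1 / 2) := by
  have e1 : y = ⌊y⌋ + Int.fract y := (Int.floor_add_fract y).symm
  have f1 := Int.fract_lt_one y
  have f0 := Int.fract_nonneg y
  rcases le_total (Int.fract y) (1 / 2) with hf | hf
  · left
    rw [gg_plateau ⌊y⌋ y (by linarith) (by linarith),
      gg_plateau ⌊y⌋ y' (by linarith) (by linarith)]
  · right
    rw [gg_plateau (⌊y⌋ + 1) (y + 1 / 2) (by push_cast; linarith) (by push_cast; linarith),
      gg_plateau (⌊y⌋ + 1) (y' + 1 / 2) (by push_cast; linarith) (by push_cast; linarith)]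

lemma gg_near (y : ℝ) : |gg y - y / 4| ≤ 1 / 4 := by
  unfold gg
  have e1 : y = ⌊y⌋ + Int.fract y := (Int.floor_add_fract y).symm
  have f1 := Int.fract_lt_one y
  have f0 := Int.fract_nonneg y
  rw [abs_le]
  constructor
  · have := le_max_left 0 (Int.fract y - 3 / 4)
    linarith
  · have : max 0 (Int.fract y - 3 / 4) ≤ 1 / 4 := max_le (by norm_num) (by linarith)
    linarith

/-- shift attached to a Boolean -/
def sh (i : Bool) : ℝ := if i then 1 / 2 else 0

lemma gg_sh (i : Bool) : gg (sh i) = 0 := by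
  have h : (0 : ℝ) ≤ sh i ∧ sh i ≤ 1 / 2 := by
    unfold sh; cases i <;> norm_num
  have := gg_plateau 0 (sh i) (by simpa using h.1) (by push_cast; linarith [h.2])
  simpa using this

/-- The functions `H_{λ,i}`: slope `1` except slope `0` on a quarter of each period `λ`. -/
def HH (l : ℝ) (i : Bool) (x : ℝ) : ℝ := x - l * gg (x / l + sh i)

lemma HH_zero (l : ℝ) (i : Bool) : HH l i 0 = 0 := by
  simp [HH, gg_sh]

lemma HH_sub_nonneg {l : ℝ} (hl : 0 < l) (i : Bool) {x x' : ℝ} (h : x ≤ x') :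
    0 ≤ HH l i x' - HH l i x := by
  have h1 := gg_sub_le (y := x / l + sh i) (y' := x' / l + sh i)
    (by have : x / l ≤ x' / l := by gcongr
        linarith)
  have h2 : l * (gg (x' / l + sh i) - gg (x / l + sh i)) ≤ l * (x' / l + sh i - (x / l + sh i)) :=
    mul_le_mul_of_nonneg_left h1 hl.le
  have h3 : l * (x' / l + sh i - (x / l + sh i)) = x' - x := by
    field_simp
    ring
  unfold HH
  linarith

lemma HH_sub_le {l : ℝ} (hl : 0 < l) (i : Bool) {x x' : ℝ} (h : x ≤ x') :
    HH l i x' - HH l i x ≤ x' - x := by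
  have h1 := gg_sub_nonneg (y := x / l + sh i) (y' := x' / l + sh i)
    (by have : x / l ≤ x' / l := by gcongr
        linarith)
  have h2 : 0 ≤ l * (gg (x' / l + sh i) - gg (x / l + sh i)) := mul_nonneg hl.le h1
  unfold HH
  linarith

lemma HH_two {l : ℝ} (hl : 0 < l) {x x' : ℝ} (h : x ≤ x') (h2 : x' - x ≤ l / 4) :
    ∃ i : Bool, HH l i x' - HH l i x = x' - x := by
  have h3 : x / l ≤ x' / l := by gcongr
  have h4 : x' / l ≤ x / l + 1 / 4 := by
    have : x' / l - x / l ≤ 1 / 4 := by
      rw [← sub_div, div_le_iff₀ hl]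
      linarith
    linarith
  rcases gg_two h3 h4 with h5 | h5
  · refine ⟨false, ?_⟩
    simp only [HH, sh]
    norm_num
    rw [h5]
    ring
  · refine ⟨true, ?_⟩
    simp only [HH, sh]
    norm_num
    norm_num at h5
    rw [h5]
    ring

lemma HH_near {l : ℝ} (hl : 0 < l) (i : Bool) (x : ℝ) : |HH l i x - 3 / 4 * x| ≤ l := by
  have h1 := gg_near (x / l + sh i)
  have h2 : (0 : ℝ) ≤ sh i ∧ sh i ≤ 1 / 2 := by
    unfold sh; cases i <;> norm_num
  have h3 : HH l i x - 3 / 4 * x
      = - (l * (gg (x / l + sh i) - (x / l + sh i) / 4)) - l * (sh i / 4) := by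
    unfold HH
    field_simp
    ring
  rw [h3]
  rw [abs_le] at h1 ⊢
  constructor
  · nlinarith [h1.1, h1.2, h2.1, h2.2]
  · nlinarith [h1.1, h1.2, h2.1, h2.2]

end

end Pool.Agent.Lib.MP_ec292c_an
end

section

set_option autoImplicit false

namespace Pool.Agent.Lib.MP_ec292c_an

open Filter Topology
open scoped BoundedContinuousFunction

noncomputable section

/-- the functional with index `(b, n)` -/
def fn (b : Bool) (n : ℕ) (x : Bool → ℝ) : ℝ := cc n * x b + ss n * x (!b)

lemma abs_fn_le (b : Bool) (n : ℕ) (x : Bool → ℝ) : |fn b n x| ≤ |x b| + |x (!b)| := by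
  unfold fn
  calc |cc n * x b + ss n * x (!b)| ≤ |cc n * x b| + |ss n * x (!b)| := abs_add_le _ _
    _ ≤ |x b| + |x (!b)| := by
        rw [abs_mul, abs_mul, abs_of_nonneg (cc_nonneg n), abs_of_nonneg (ss_nonneg n)]
        have := cc_le_one n
        have := ss_le_one n
        have := abs_nonneg (x b)
        have := abs_nonneg (x (!b))
        nlinarith

/-- The linear map `ℝ² → ℓ_∞` whose range is the space `X`. -/
def LL : (Bool → ℝ) →ₗ[ℝ] ((Bool × ℕ) →ᵇ ℝ) where
  toFun x := BoundedContinuousFunction.ofNormedAddCommGroupDiscrete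
    (fun j : Bool × ℕ => fn j.1 j.2 x) (|x false| + |x true|) (by
      rintro ⟨b, n⟩
      rw [Real.norm_eq_abs]
      have := abs_fn_le b n x
      cases b
      · simpa using this
      · simpa [add_comm] using this)
  map_add' x y := by
    ext ⟨b, n⟩
    simp [fn]
    ring
  map_smul' r x := by
    ext ⟨b, n⟩
    simp [fn]
    ring

lemma LL_apply (x : Bool → ℝ) (b : Bool) (n : ℕ) : LL x (b, n) = fn b n x := rfl

/-- the two-dimensional space `X` -/
abbrev XX : Submodule ℝ ((Bool × ℕ) →ᵇ ℝ) := LinearMap.range LL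

instance : CompleteSpace XX := (Submodule.complete_of_finiteDimensional XX).completeSpace_coe

instance : TopologicalSpace.SeparableSpace XX := by
  have : ProperSpace XX := FiniteDimensional.proper_real XX
  infer_instance

/-- coordinates of a point of `X` -/
def co (y : XX) (b : Bool) : ℝ := (y : (Bool × ℕ) →ᵇ ℝ) (b, 0)

lemma fn_zero (b : Bool) (x : Bool → ℝ) : fn b 0 x = x b := by
  simp [fn, cc_zero, ss_zero]

lemma coe_apply (y : XX) (b : Bool) (n : ℕ) :
    (y : (Bool × ℕ) →ᵇ ℝ) (b, n) = fn b n (co y) := by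
  obtain ⟨y, ⟨x, rfl⟩⟩ := y
  have : co ⟨LL x, ⟨x, rfl⟩⟩ = x := by
    funext b
    simp [co, LL_apply, fn_zero]
  rw [this]
  rfl

lemma abs_fn_co_le (y : XX) (b : Bool) (n : ℕ) : |fn b n (co y)| ≤ ‖y‖ := by
  rw [← coe_apply, ← Real.norm_eq_abs]
  exact BoundedContinuousFunction.norm_coe_le_norm _ _

lemma abs_co_le (y : XX) (b : Bool) : |co y b| ≤ ‖y‖ := by
  have := abs_fn_co_le y b 0
  rwa [fn_zero] at this

lemma co_sub (y y' : XX) (b : Bool) : co (y - y') b = co y b - co y' b := by
  simp [co]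

/-- The Banach space `Z`. -/
def ZZ : Submodule ℝ ((Bool × Bool × ℕ × Bool) →ᵇ ℝ) where
  carrier := {z | (∀ b k i, z (true, b, k, i)
      = cc k * z (true, b, 0, false) + ss k * z (false, b, k, i)) ∧
    ∀ b i, Tendsto (fun k => z (false, b, k, i)) atTop (𝓝 (3 / 4 * z (true, !b, 0, false)))}
  add_mem' := by
    rintro z w ⟨h1, h2⟩ ⟨h3, h4⟩
    refine ⟨fun b k i => ?_, fun b i => ?_⟩
    · simp only [BoundedContinuousFunction.coe_add, Pi.add_apply]
      rw [h1, h3]; ring
    · have := (h2 b i).add (h4 b i)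
      simp only [BoundedContinuousFunction.coe_add, Pi.add_apply, mul_add]
      exact this
  zero_mem' := by
    refine ⟨fun b k i => by simp, fun b i => by simp⟩
  smul_mem' := by
    rintro r z ⟨h1, h2⟩
    refine ⟨fun b k i => ?_, fun b i => ?_⟩
    · simp only [BoundedContinuousFunction.coe_smul, smul_eq_mul]
      rw [h1]; ring
    · have := (h2 b i).const_mul r
      simp only [BoundedContinuousFunction.coe_smul, smul_eq_mul]
      have e : 3 / 4 * (r * z (true, !b, 0, false)) = r * (3 / 4 * z (true, !b, 0, false)) := by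
        ring
      rw [e]
      exact this

lemma mem_ZZ (z : (Bool × Bool × ℕ × Bool) →ᵇ ℝ) : z ∈ ZZ ↔
    (∀ b k i, z (true, b, k, i)
      = cc k * z (true, b, 0, false) + ss k * z (false, b, k, i)) ∧
    ∀ b i, Tendsto (fun k => z (false, b, k, i)) atTop (𝓝 (3 / 4 * z (true, !b, 0, false))) :=
  Iff.rfl

lemma isClosed_ZZ : IsClosed (ZZ : Set ((Bool × Bool × ℕ × Bool) →ᵇ ℝ)) := by
  apply isClosed_of_closure_subset
  intro z hz
  rw [Metric.mem_closure_iff] at hz
  have key : ∀ ε > 0, ∃ w ∈ ZZ, ∀ j, |z j - w j| < ε := by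
    intro ε hε
    obtain ⟨w, hw, hd⟩ := hz ε hε
    refine ⟨w, hw, fun j => ?_⟩
    have := BoundedContinuousFunction.dist_coe_le_dist (f := z) (g := w) j
    rw [Real.dist_eq] at this
    linarith
  refine ⟨fun b k i => ?_, fun b i => ?_⟩
  · rw [← sub_eq_zero]
    by_contra hne
    have hpos : 0 < |z (true, b, k, i)
      - (cc k * z (true, b, 0, false) + ss k * z (false, b, k, i))| := abs_pos.mpr hne
    obtain ⟨w, hw, hd⟩ := key (_ / 4) (div_pos hpos (by norm_num : (0 : ℝ) < 4))
    have h1 := hd (true, b, k, i)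
    have h2 := hd (true, b, 0, false)
    have h3 := hd (false, b, k, i)
    have h4 := hw.1 b k i
    have h5 : z (true, b, k, i) - (cc k * z (true, b, 0, false) + ss k * z (false, b, k, i))
      = (z (true, b, k, i) - w (true, b, k, i)) - cc k * (z (true, b, 0, false) - w (true, b, 0, false))
        - ss k * (z (false, b, k, i) - w (false, b, k, i)) := by rw [h4]; ring
    have h6 : |cc k * (z (true, b, 0, false) - w (true, b, 0, false))|
        ≤ |z (true, b, 0, false) - w (true, b, 0, false)| := by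
      rw [abs_mul, abs_of_nonneg (cc_nonneg k)]
      have := cc_le_one k
      have := abs_nonneg (z (true, b, 0, false) - w (true, b, 0, false))
      nlinarith
    have h7 : |ss k * (z (false, b, k, i) - w (false, b, k, i))|
        ≤ |z (false, b, k, i) - w (false, b, k, i)| := by
      rw [abs_mul, abs_of_nonneg (ss_nonneg k)]
      have := ss_le_one k
      have := abs_nonneg (z (false, b, k, i) - w (false, b, k, i))
      nlinarith
    have h8 := abs_sub (z (true, b, k, i) - w (true, b, k, i)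
      - cc k * (z (true, b, 0, false) - w (true, b, 0, false)))
      (ss k * (z (false, b, k, i) - w (false, b, k, i)))
    have h9 := abs_sub (z (true, b, k, i) - w (true, b, k, i))
      (cc k * (z (true, b, 0, false) - w (true, b, 0, false)))
    rw [← h5] at h8
    linarith
  · rw [Metric.tendsto_atTop]
    intro ε hε
    obtain ⟨w, hw, hd⟩ := key (ε / 4) (by linarith)
    obtain ⟨N, hN⟩ := (Metric.tendsto_atTop.mp (hw.2 b i)) (ε / 4) (by linarith)
    refine ⟨N, fun k hk => ?_⟩
    have h1 := hN k hk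
    rw [Real.dist_eq] at h1 ⊢
    have h2 := hd (false, b, k, i)
    have h3 := hd (true, !b, 0, false)
    rw [abs_lt] at h1 h2 h3 ⊢
    constructor
    · linarith [h1.1, h1.2, h2.1, h2.2, h3.1, h3.2]
    · linarith [h1.1, h1.2, h2.1, h2.2, h3.1, h3.2]

instance : CompleteSpace ZZ := isClosed_ZZ.completeSpace_coe

/-! ### The nonlinear isometric embedding of bounded sets -/

/-- period used at level `k` for points of norm at most `R` -/
def per (R : ℝ) (k : ℕ) : ℝ := 32 * (R + 1) * (1 / 2) ^ k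

lemma per_pos {R : ℝ} (hR : 0 ≤ R) (k : ℕ) : 0 < per R k := by
  unfold per; positivity

lemma per_tendsto (R : ℝ) : Tendsto (per R) atTop (𝓝 0) := by
  have h : Tendsto (fun n : ℕ => ((1 : ℝ) / 2) ^ n) atTop (𝓝 0) :=
    tendsto_pow_atTop_nhds_zero_of_lt_one (by norm_num) (by norm_num)
  have := h.const_mul (32 * (R + 1))
  rw [mul_zero] at this
  exact this

lemma abs_HH_sub_le {l : ℝ} (hl : 0 < l) (i : Bool) (x x' : ℝ) :
    |HH l i x - HH l i x'| ≤ |x - x'| := by
  rcases le_total x x' with h | h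
  · have h1 := HH_sub_nonneg hl i h
    have h2 := HH_sub_le hl i h
    rw [abs_sub_comm, abs_of_nonneg h1, abs_sub_comm, abs_of_nonneg (by linarith)]
    exact h2
  · have h1 := HH_sub_nonneg hl i h
    have h2 := HH_sub_le hl i h
    rw [abs_of_nonneg h1, abs_of_nonneg (by linarith)]
    exact h2

lemma abs_HH_le {l : ℝ} (hl : 0 < l) (i : Bool) (x : ℝ) : |HH l i x| ≤ |x| := by
  have := abs_HH_sub_le hl i x 0
  simpa [HH_zero] using this

/-- coordinates of the embedding -/
def phiFun (R : ℝ) (y : XX) : Bool × Bool × ℕ × Bool → ℝ := fun j =>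
  if j.1 then cc j.2.2.1 * co y j.2.1 + ss j.2.2.1 * HH (per R j.2.2.1) j.2.2.2 (co y (!j.2.1))
  else HH (per R j.2.2.1) j.2.2.2 (co y (!j.2.1))

lemma phiFun_true (R : ℝ) (y : XX) (b : Bool) (k : ℕ) (i : Bool) :
    phiFun R y (true, b, k, i) = cc k * co y b + ss k * HH (per R k) i (co y (!b)) := rfl

lemma phiFun_false (R : ℝ) (y : XX) (b : Bool) (k : ℕ) (i : Bool) :
    phiFun R y (false, b, k, i) = HH (per R k) i (co y (!b)) := rfl

lemma phiFun_bound {R : ℝ} (hR : 0 ≤ R) (y : XX) (j : Bool × Bool × ℕ × Bool) :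
    ‖phiFun R y j‖ ≤ 2 * ‖y‖ := by
  obtain ⟨t, b, k, i⟩ := j
  rw [Real.norm_eq_abs]
  have h1 := abs_HH_le (per_pos hR k) i (co y (!b))
  have h2 := abs_co_le y b
  have h3 := abs_co_le y (!b)
  have h4 := norm_nonneg y
  cases t
  · rw [phiFun_false]
    linarith
  · rw [phiFun_true]
    have h5 := abs_add_le (cc k * co y b) (ss k * HH (per R k) i (co y (!b)))
    have h6 : |cc k * co y b| ≤ |co y b| := by
      rw [abs_mul, abs_of_nonneg (cc_nonneg k)]
      have := cc_le_one k
      have := abs_nonneg (co y b)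
      nlinarith
    have h7 : |ss k * HH (per R k) i (co y (!b))| ≤ |HH (per R k) i (co y (!b))| := by
      rw [abs_mul, abs_of_nonneg (ss_nonneg k)]
      have := ss_le_one k
      have := abs_nonneg (HH (per R k) i (co y (!b)))
      nlinarith
    linarith

def phi (R : ℝ) (hR : 0 ≤ R) (y : XX) : (Bool × Bool × ℕ × Bool) →ᵇ ℝ :=
  BoundedContinuousFunction.ofNormedAddCommGroupDiscrete (phiFun R y) (2 * ‖y‖)
    (phiFun_bound hR y)

lemma phi_apply (R : ℝ) (hR : 0 ≤ R) (y : XX) (j : Bool × Bool × ℕ × Bool) :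
    phi R hR y j = phiFun R y j := rfl

lemma phi_mem (R : ℝ) (hR : 0 ≤ R) (y : XX) : phi R hR y ∈ ZZ := by
  rw [mem_ZZ]
  simp only [phi_apply, phiFun_true, phiFun_false, cc_zero, ss_zero, one_mul, zero_mul, add_zero]
  refine ⟨fun b k i => trivial, fun b i => ?_⟩
  rw [tendsto_iff_dist_tendsto_zero]
  refine squeeze_zero (fun k => dist_nonneg) (fun k => ?_) (per_tendsto R)
  rw [Real.dist_eq]
  exact HH_near (per_pos hR k) i _

/-- the upper estimate -/
lemma phi_sub_le (R : ℝ) (hR : 0 ≤ R) (y y' : XX) (j : Bool × Bool × ℕ × Bool) :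
    |phiFun R y j - phiFun R y' j| ≤ ‖y - y'‖ := by
  obtain ⟨t, b, k, i⟩ := j
  have h0 := abs_HH_sub_le (per_pos hR k) i (co y (!b)) (co y' (!b))
  have h1 := abs_co_le (y - y') b
  have h2 := abs_co_le (y - y') (!b)
  have h3 := abs_fn_co_le (y - y') b k
  have h4 : |cc k * (co y b - co y' b)| ≤ ‖y - y'‖ := by
    rw [co_sub] at h1
    rw [abs_mul, abs_of_nonneg (cc_nonneg k)]
    have := cc_le_one k
    have := abs_nonneg (co y b - co y' b)
    nlinarith
  rw [fn, co_sub, co_sub] at h3
  rw [co_sub] at h1 h2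
  cases t
  · rw [phiFun_false, phiFun_false]
    linarith
  · rw [phiFun_true, phiFun_true]
    have e : cc k * co y b + ss k * HH (per R k) i (co y (!b))
        - (cc k * co y' b + ss k * HH (per R k) i (co y' (!b)))
        = cc k * (co y b - co y' b)
          + ss k * (HH (per R k) i (co y (!b)) - HH (per R k) i (co y' (!b))) := by ring
    rw [e]
    rw [abs_le] at h3 h4 ⊢
    have hs := ss_nonneg k
    rcases le_total (co y (!b)) (co y' (!b)) with h | h
    · have h5 := HH_sub_nonneg (per_pos hR k) i h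
      have h6 := HH_sub_le (per_pos hR k) i h
      constructor
      · nlinarith [h3.1, h4.1]
      · nlinarith [h3.2, h4.2]
    · have h5 := HH_sub_nonneg (per_pos hR k) i h
      have h6 := HH_sub_le (per_pos hR k) i h
      constructor
      · nlinarith [h3.1, h4.1]
      · nlinarith [h3.2, h4.2]

/-- the lower estimate, one-sided -/
lemma fn_sub_le (R : ℝ) (hR : 0 ≤ R) (y y' : XX) (hy : ‖y‖ ≤ R) (hy' : ‖y'‖ ≤ R) (M : ℝ)
    (hM : ∀ j, |phiFun R y j - phiFun R y' j| ≤ M) (b : Bool) (n : ℕ) :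
    cc n * (co y b - co y' b) + ss n * (co y (!b) - co y' (!b)) ≤ M := by
  have hM0 : 0 ≤ M := (abs_nonneg _).trans (hM (true, b, 0, false))
  have hb : ∀ b, |co y b - co y' b| ≤ M := by
    intro b
    have := hM (true, b, 0, false)
    simpa [phiFun_true, cc_zero, ss_zero] using this
  have hb1 := hb b
  have hb2 := hb (!b)
  have hR1 : |co y b - co y' b| ≤ 2 * R := by
    have h1 := abs_co_le y b
    have h2 := abs_co_le y' b
    have h3 := abs_sub (co y b) (co y' b)
    linarith
  have hR2 : |co y (!b) - co y' (!b)| ≤ 2 * R := by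
    have h1 := abs_co_le y (!b)
    have h2 := abs_co_le y' (!b)
    have h3 := abs_sub (co y (!b)) (co y' (!b))
    linarith
  -- the staircase coordinate
  have strip : ∀ n : ℕ, 0 ≤ co y (!b) - co y' (!b) → co y (!b) - co y' (!b) ≤ per R n / 4 →
      cc n * (co y b - co y' b) + ss n * (co y (!b) - co y' (!b)) ≤ M := by
    intro n h1 h2
    obtain ⟨i, hi⟩ := HH_two (per_pos hR n) (x := co y' (!b)) (x' := co y (!b))
      (by linarith) h2
    have h3 := hM (true, b, n, i)
    rw [phiFun_true, phiFun_true] at h3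
    have h4 := (abs_le.mp h3).2
    rw [← hi]
    linarith
  rw [abs_le] at hb1 hb2 hR1 hR2
  set d1 := co y b - co y' b with hd1
  set d2 := co y (!b) - co y' (!b) with hd2
  induction n with
  | zero => simp [cc_zero, ss_zero]; exact hb1.2
  | succ n ih =>
    have ht := tt_pos (by omega : 1 ≤ n + 1)
    have hden := den_pos (n + 1)
    by_cases h1 : cc (n + 1) * d1 + ss (n + 1) * d2 ≤ d1
    · linarith [hb1.2]
    push Not at h1
    by_cases h0 : cc (n + 1) * d1 + ss (n + 1) * d2 ≤ 0
    · linarith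
    push Not at h0
    by_cases h2 : cc (n + 1) * d1 + ss (n + 1) * d2 ≤ d2
    · linarith [hb2.2]
    push Not at h2
    -- d2 > t d1
    have h3 : tt (n + 1) * d1 < d2 := by
      have e : cc (n + 1) * d1 + ss (n + 1) * d2 - d1
          = 2 * tt (n + 1) * (d2 - tt (n + 1) * d1) / (1 + tt (n + 1) ^ 2) := by
        unfold cc ss
        field_simp
        ring
      have h4 : 0 < 2 * tt (n + 1) * (d2 - tt (n + 1) * d1) / (1 + tt (n + 1) ^ 2) := by
        rw [← e]; linarith
      rw [div_pos_iff_of_pos_right hden] at h4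
      have := (mul_pos_iff_of_pos_left (by positivity : (0:ℝ) < 2 * tt (n + 1))).mp h4
      linarith
    rcases Nat.eq_zero_or_pos n with hn | hn
    · -- level one
      subst hn
      apply strip
      · by_contra hneg
        push Not at hneg
        have : d1 < 0 := by
          by_contra h5
          push Not at h5
          have := mul_nonneg ht.le h5
          linarith
        have h6 := cc_nonneg (0 + 1)
        have h7 := ss_nonneg (0 + 1)
        nlinarith
      · unfold per
        norm_num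
        linarith [hR2.2]
    · by_cases h5 : cc (n + 1) * d1 + ss (n + 1) * d2 ≤ cc n * d1 + ss n * d2
      · linarith
      push Not at h5
      have htt : tt n = 2 * tt (n + 1) := by
        have := tt_pred (n := n + 1) (by omega)
        simpa using this
      have hq := tt_le_quarter (n := n + 1) (by omega)
      -- (1 - 2t²) d2 < 3 t d1
      have h6 : (1 - 2 * tt (n + 1) ^ 2) * d2 < 3 * tt (n + 1) * d1 := by
        have hden2 : 0 < 1 + 4 * tt (n + 1) ^ 2 := by positivity
        have e : cc (n + 1) * d1 + ss (n + 1) * d2 - (cc n * d1 + ss n * d2)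
            = 2 * tt (n + 1) * (3 * tt (n + 1) * d1 - (1 - 2 * tt (n + 1) ^ 2) * d2)
              / ((1 + tt (n + 1) ^ 2) * (1 + 4 * tt (n + 1) ^ 2)) := by
          unfold cc ss
          rw [htt]
          field_simp
          ring
        have h4 : 0 < 2 * tt (n + 1) * (3 * tt (n + 1) * d1 - (1 - 2 * tt (n + 1) ^ 2) * d2)
              / ((1 + tt (n + 1) ^ 2) * (1 + 4 * tt (n + 1) ^ 2)) := by
          rw [← e]; linarith
        rw [div_pos_iff_of_pos_right (by positivity)] at h4
        have := (mul_pos_iff_of_pos_left (by positivity : (0:ℝ) < 2 * tt (n + 1))).mp h4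
        linarith
      have h7 : (7 : ℝ) / 8 ≤ 1 - 2 * tt (n + 1) ^ 2 := by nlinarith
      have hd1nn : 0 ≤ d1 := by
        by_contra hneg
        push Not at hneg
        have h8 : d2 < 0 := by
          by_contra h9
          push Not at h9
          have : 0 ≤ (1 - 2 * tt (n + 1) ^ 2) * d2 := mul_nonneg (by linarith) h9
          nlinarith
        have h10 := cc_nonneg (n + 1)
        have h11 := ss_nonneg (n + 1)
        nlinarith
      have hd2nn : 0 ≤ d2 := by
        have := mul_nonneg ht.le hd1nn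
        linarith
      apply strip _ hd2nn
      have h8 : d2 ≤ 4 * tt (n + 1) * d1 := by nlinarith
      have h9 : d1 ≤ 2 * R := hR1.2
      have h10 : tt (n + 1) = (1 / 2) ^ (n + 1) := tt_of_pos (by omega)
      unfold per
      rw [← h10]
      nlinarith

lemma isometry_phi (R : ℝ) (hR : 0 ≤ R) (y y' : XX) (hy : ‖y‖ ≤ R) (hy' : ‖y'‖ ≤ R) :
    ‖phi R hR y - phi R hR y'‖ = ‖y - y'‖ := by
  apply le_antisymm
  · refine (BoundedContinuousFunction.norm_le (norm_nonneg (y - y'))).mpr ?_
    intro j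
    rw [Real.norm_eq_abs]
    exact phi_sub_le R hR y y' j
  · have hM : ∀ j, |phiFun R y j - phiFun R y' j| ≤ ‖phi R hR y - phi R hR y'‖ := by
      intro j
      have := BoundedContinuousFunction.norm_coe_le_norm (phi R hR y - phi R hR y') j
      rwa [Real.norm_eq_abs] at this
    refine (BoundedContinuousFunction.norm_le (norm_nonneg _)).mpr ?_
    rintro ⟨b, n⟩
    change ‖((y - y' : XX) : (Bool × ℕ) →ᵇ ℝ) (b, n)‖ ≤ _
    rw [Real.norm_eq_abs, coe_apply, fn, co_sub, co_sub, abs_le]
    have h1 := fn_sub_le R hR y y' hy hy' _ hM b n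
    have h2 := fn_sub_le R hR y' y hy' hy _ (fun j => by rw [abs_sub_comm]; exact hM j) b n
    constructor
    · linarith
    · exact h1

end

end Pool.Agent.Lib.MP_ec292c_an
end

section

set_option autoImplicit false

namespace Pool.Agent.Lib.MP_ec292c_an

open Filter Topology
open scoped BoundedContinuousFunction

noncomputable section

/-- a sequence with values below one and limit below one is bounded away from one -/
lemma bdd_lt_one (a : ℕ → ℝ) (l : ℝ) (h1 : ∀ n, a n < 1) (h2 : Tendsto a atTop (𝓝 l))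
    (hl : l < 1) : ∃ r < 1, ∀ n, a n ≤ r := by
  obtain ⟨N, hN⟩ := eventually_atTop.mp (h2.eventually (gt_mem_nhds (show l < (l + 1) / 2 by
    linarith)))
  have hne : (Finset.range (N + 1)).Nonempty := ⟨0, by simp⟩
  obtain ⟨m, -, hm⟩ := Finset.exists_max_image (Finset.range (N + 1)) a hne
  refine ⟨max ((l + 1) / 2) (a m), max_lt (by linarith) (h1 m), fun n => ?_⟩
  rcases le_total N n with h | h
  · exact (hN n h).le.trans (le_max_left _ _)
  · exact (hm n (by simp; omega)).trans (le_max_right _ _)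

lemma ZZ_tendsto_true {z : (Bool × Bool × ℕ × Bool) →ᵇ ℝ} (hz : z ∈ ZZ) (b i : Bool) :
    Tendsto (fun k => z (true, b, k, i)) atTop (𝓝 (z (true, b, 0, false))) := by
  have h1 : Tendsto (fun k => cc k * z (true, b, 0, false) + ss k * z (false, b, k, i)) atTop
      (𝓝 (1 * z (true, b, 0, false) + 0 * (3 / 4 * z (true, !b, 0, false)))) :=
    (cc_tendsto.mul_const _).add (ss_tendsto.mul (hz.2 b i))
  simp only [one_mul, zero_mul, add_zero] at h1
  refine h1.congr (fun k => ?_)
  exact (hz.1 b k i).symm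

lemma attained {z : (Bool × Bool × ℕ × Bool) →ᵇ ℝ} (hz : z ∈ ZZ) (hn : ‖z‖ = 1) :
    ∃ j, |z j| = 1 := by
  by_contra hcon
  push Not at hcon
  have hle : ∀ j, |z j| ≤ 1 := fun j => by
    rw [← hn, ← Real.norm_eq_abs]
    exact BoundedContinuousFunction.norm_coe_le_norm z j
  have hlt : ∀ j, |z j| < 1 := fun j => lt_of_le_of_ne (hle j) (hcon j)
  have key : ∀ θ : Bool × Bool × Bool, ∃ r < 1, ∀ k, |z (θ.1, θ.2.1, k, θ.2.2)| ≤ r := by
    rintro ⟨t, b, i⟩
    cases t
    · apply bdd_lt_one _ (|3 / 4 * z (true, !b, 0, false)|) (fun n => hlt _) (hz.2 b i).abs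
      rw [abs_mul, abs_of_pos (by norm_num : (0 : ℝ) < 3 / 4)]
      have := hlt (true, !b, 0, false)
      linarith
    · exact bdd_lt_one _ (|z (true, b, 0, false)|) (fun n => hlt _)
        (ZZ_tendsto_true hz b i).abs (hlt _)
  choose r hr1 hr2 using key
  obtain ⟨θ, -, hθ⟩ := Finset.exists_max_image (Finset.univ : Finset (Bool × Bool × Bool)) r
    Finset.univ_nonempty
  have hr0 : 0 ≤ r θ := (abs_nonneg _).trans (hr2 θ 0)
  have : ‖z‖ ≤ r θ := by
    rw [BoundedContinuousFunction.norm_le hr0]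
    rintro ⟨t, b, k, i⟩
    rw [Real.norm_eq_abs]
    exact (hr2 (t, b, i) k).trans (hθ _ (Finset.mem_univ _))
  have := hr1 θ
  linarith

lemma abs_fn_sq_le (b : Bool) (n : ℕ) (x : Bool → ℝ) :
    (fn b n x) ^ 2 ≤ x false ^ 2 + x true ^ 2 := by
  have h := cc_sq_add n
  have h2 : x false ^ 2 + x true ^ 2 = x b ^ 2 + x (!b) ^ 2 := by
    cases b
    · simp
    · simp [add_comm]
  rw [h2]
  have h3 : (fn b n x) ^ 2 + (ss n * x b - cc n * x (!b)) ^ 2
      = (cc n ^ 2 + ss n ^ 2) * (x b ^ 2 + x (!b) ^ 2) := by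
    unfold fn; ring
  rw [h, one_mul] at h3
  have := sq_nonneg (ss n * x b - cc n * x (!b))
  linarith

lemma norm_LL_sq_le (x : Bool → ℝ) : ‖LL x‖ ^ 2 ≤ x false ^ 2 + x true ^ 2 := by
  have h0 : 0 ≤ x false ^ 2 + x true ^ 2 := by positivity
  have : ‖LL x‖ ≤ Real.sqrt (x false ^ 2 + x true ^ 2) := by
    rw [BoundedContinuousFunction.norm_le (Real.sqrt_nonneg _)]
    rintro ⟨b, n⟩
    rw [LL_apply, Real.norm_eq_abs]
    exact Real.abs_le_sqrt (abs_fn_sq_le b n x)
  calc ‖LL x‖ ^ 2 ≤ (Real.sqrt (x false ^ 2 + x true ^ 2)) ^ 2 :=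
        pow_le_pow_left₀ (norm_nonneg _) this 2
    _ = _ := Real.sq_sqrt h0

/-- the extreme point with index `(b, m)` -/
def avec (b : Bool) (m : ℕ) (b' : Bool) : ℝ := if b' = b then cc m else ss m

lemma avec_sq (b : Bool) (m : ℕ) : avec b m false ^ 2 + avec b m true ^ 2 = 1 := by
  have := cc_sq_add m
  cases b <;> simp [avec] <;> linarith

lemma norm_LL_avec (b : Bool) (m : ℕ) : ‖LL (avec b m)‖ = 1 := by
  apply le_antisymm
  · have := norm_LL_sq_le (avec b m)
    rw [avec_sq] at this
    nlinarith [norm_nonneg (LL (avec b m))]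
  · have h := BoundedContinuousFunction.norm_coe_le_norm (LL (avec b m)) (b, m)
    rw [LL_apply, Real.norm_eq_abs] at h
    have e : fn b m (avec b m) = 1 := by
      have := cc_sq_add m
      unfold fn avec
      cases b <;> simp <;> linarith
    rw [e, abs_one] at h
    exact h

/-- sign of a Boolean -/
def sg (σ : Bool) : ℝ := if σ then 1 else -1

lemma sg_sq (σ : Bool) : sg σ * sg σ = 1 := by cases σ <;> simp [sg]

lemma ss_injective : Function.Injective ss := by
  intro m n h
  have hc : cc m = cc n := by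
    have h1 := cc_sq_add m
    have h2 := cc_sq_add n
    rw [h] at h1
    have h3 : cc m ^ 2 = cc n ^ 2 := by linarith
    exact (pow_left_inj₀ (cc_nonneg m) (cc_nonneg n) (by norm_num)).mp h3
  have ht : ∀ k, tt k = ss k / (1 + cc k) := by
    intro k
    have := den_pos k
    have h1 : 1 + cc k = 2 / (1 + tt k ^ 2) := by
      unfold cc; field_simp; ring
    rw [h1]
    unfold ss
    field_simp
  have htt : tt m = tt n := by rw [ht m, ht n, h, hc]
  rcases Nat.eq_zero_or_pos m with hm | hm <;> rcases Nat.eq_zero_or_pos n with hn | hn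
  · omega
  · have := tt_pos hn
    rw [hm, tt_zero] at htt
    linarith
  · have := tt_pos hm
    rw [hn, tt_zero] at htt
    linarith
  · rw [tt_of_pos hm, tt_of_pos hn] at htt
    exact pow_right_injective₀ (by norm_num : (0 : ℝ) < 1 / 2) (by norm_num) htt

section

variable (T : XX →ₗᵢ[ℝ] ZZ)

/-- the composite map on `ℝ²` -/
def Smap : (Bool → ℝ) →ₗ[ℝ] ((Bool × Bool × ℕ × Bool) →ᵇ ℝ) :=
  ZZ.subtype ∘ₗ T.toLinearMap ∘ₗ LL.rangeRestrict

lemma Smap_mem (x : Bool → ℝ) : Smap T x ∈ ZZ := (T (LL.rangeRestrict x)).2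

lemma norm_Smap (x : Bool → ℝ) : ‖Smap T x‖ = ‖LL x‖ := by
  have h1 : ‖Smap T x‖ = ‖T (LL.rangeRestrict x)‖ := rfl
  rw [h1, T.norm_map]
  rfl

/-- the coordinate functionals composed with `T` -/
def DD (j : Bool × Bool × ℕ × Bool) (b : Bool) : ℝ := Smap T (Pi.single b 1) j

lemma Smap_apply (x : Bool → ℝ) (j : Bool × Bool × ℕ × Bool) :
    Smap T x j = x false * DD T j false + x true * DD T j true := by
  have h : x = x false • Pi.single false (1 : ℝ) + x true • Pi.single true (1 : ℝ) := by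
    funext b
    cases b <;> simp
  conv_lhs => rw [h]
  rw [map_add, map_smul, map_smul]
  simp [DD]

lemma DD_sq_le (j : Bool × Bool × ℕ × Bool) : DD T j false ^ 2 + DD T j true ^ 2 ≤ 1 := by
  have h1 := Smap_apply T (DD T j) j
  have h2 := BoundedContinuousFunction.norm_coe_le_norm (Smap T (DD T j)) j
  rw [norm_Smap, Real.norm_eq_abs, h1] at h2
  have h3 := norm_LL_sq_le (DD T j)
  set q := DD T j false ^ 2 + DD T j true ^ 2 with hq
  have h4 : DD T j false * DD T j false + DD T j true * DD T j true = q := by rw [hq]; ring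
  rw [h4] at h2
  have h5 : 0 ≤ q := by positivity
  rw [abs_of_nonneg h5] at h2
  have h6 : q ^ 2 ≤ q := (pow_le_pow_left₀ h5 h2 2).trans h3
  by_contra hcon
  push Not at hcon
  nlinarith

lemma DD_abs_le (j : Bool × Bool × ℕ × Bool) (b : Bool) : |DD T j b| ≤ 1 := by
  have h := DD_sq_le T j
  have h2 : DD T j b ^ 2 ≤ 1 := by
    cases b
    · nlinarith [sq_nonneg (DD T j true)]
    · nlinarith [sq_nonneg (DD T j false)]
  rw [abs_le]
  constructor <;> nlinarith

lemma exists_DD (b : Bool) (m : ℕ) : ∃ j, ∃ σ : Bool, ∀ b', DD T j b' = sg σ * avec b m b' := by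
  have h1 : ‖Smap T (avec b m)‖ = 1 := by rw [norm_Smap, norm_LL_avec]
  obtain ⟨j, hj⟩ := attained (Smap_mem T _) h1
  rw [Smap_apply] at hj
  have h2 := DD_sq_le T j
  have h3 := avec_sq b m
  refine ⟨j, ?_⟩
  rcases eq_or_eq_neg_of_abs_eq hj with h | h
  · refine ⟨true, ?_⟩
    have h4 : (DD T j false - avec b m false) ^ 2 + (DD T j true - avec b m true) ^ 2 ≤ 0 := by
      nlinarith
    have h5 : DD T j false - avec b m false = 0 := by
      nlinarith [sq_nonneg (DD T j false - avec b m false), sq_nonneg (DD T j true - avec b m true)]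
    have h6 : DD T j true - avec b m true = 0 := by
      nlinarith [sq_nonneg (DD T j false - avec b m false), sq_nonneg (DD T j true - avec b m true)]
    intro b'
    cases b' <;> simp [sg] <;> linarith
  · refine ⟨false, ?_⟩
    have h4 : (DD T j false + avec b m false) ^ 2 + (DD T j true + avec b m true) ^ 2 ≤ 0 := by
      nlinarith
    have h5 : DD T j false + avec b m false = 0 := by
      nlinarith [sq_nonneg (DD T j false + avec b m false), sq_nonneg (DD T j true + avec b m true)]
    have h6 : DD T j true + avec b m true = 0 := by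
      nlinarith [sq_nonneg (DD T j false + avec b m false), sq_nonneg (DD T j true + avec b m true)]
    intro b'
    cases b' <;> simp [sg] <;> linarith

lemma avec_tendsto (b b' : Bool) :
    Tendsto (fun m => avec b m b') atTop (𝓝 (if b' = b then 1 else 0)) := by
  unfold avec
  split_ifs
  · exact cc_tendsto
  · exact ss_tendsto

lemma DD_rel (b : Bool) (k : ℕ) (i b' : Bool) : DD T (true, b, k, i) b'
    = cc k * DD T (true, b, 0, false) b' + ss k * DD T (false, b, k, i) b' :=
  (Smap_mem T _).1 b k i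

lemma DD_tendsto_false (b i b' : Bool) : Tendsto (fun k => DD T (false, b, k, i) b') atTop
    (𝓝 (3 / 4 * DD T (true, !b, 0, false) b')) := (Smap_mem T _).2 b i

lemma DD_tendsto_true (b i b' : Bool) : Tendsto (fun k => DD T (true, b, k, i) b') atTop
    (𝓝 (DD T (true, b, 0, false) b')) := ZZ_tendsto_true (Smap_mem T _) b i

lemma core (b : Bool) : ∃ (b0 i σ : Bool) (k : ℕ → ℕ) (F : Filter ℕ), F.NeBot ∧ F ≤ atTop ∧
    Tendsto k F atTop ∧ (∀ᶠ m in F, ∀ b', DD T (true, b0, k m, i) b' = sg σ * avec b m b') ∧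
    ∀ b', DD T (true, b0, 0, false) b' = sg σ * (if b' = b then 1 else 0) := by
  choose J σ hJ using fun m => exists_DD T b m
  obtain ⟨v0, hv0⟩ := Finite.exists_infinite_fiber
    (fun m : ℕ => ((J m).1, (J m).2.1, (J m).2.2.2, σ m))
  obtain ⟨t, b0, i, σ0⟩ := v0
  set S : Set ℕ := (fun m : ℕ => ((J m).1, (J m).2.1, (J m).2.2.2, σ m)) ⁻¹' {(t, b0, i, σ0)}
    with hS
  have hSinf : S.Infinite := Set.infinite_coe_iff.mp hv0
  have hSmem : ∀ m ∈ S, J m = (t, b0, (J m).2.2.1, i) ∧ σ m = σ0 := by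
    intro m hm
    simp only [hS, Set.mem_preimage, Set.mem_singleton_iff, Prod.mk.injEq] at hm
    obtain ⟨h1, h2, h3, h4⟩ := hm
    refine ⟨?_, h4⟩
    rw [← h1, ← h2, ← h3]
  set F : Filter ℕ := atTop ⊓ 𝓟 S with hF
  have hFne : F.NeBot := by
    rw [hF, ← frequently_mem_iff_neBot, Nat.frequently_atTop_iff_infinite]
    exact hSinf
  have hFle : F ≤ atTop := inf_le_left
  have hSF : ∀ᶠ m in F, m ∈ S := mem_inf_of_right (mem_principal_self S)
  have hk : Tendsto (fun m => (J m).2.2.1) F atTop := by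
    rw [tendsto_atTop]
    intro N
    have hfin : {m | m ∈ S ∧ (J m).2.2.1 < N}.Finite := by
      apply Set.Finite.of_injOn (f := fun m => (J m).2.2.1) (t := Set.Iio N)
      · intro m hm
        exact hm.2
      · intro m hm m' hm' he
        simp only at he
        have h1 := hSmem m hm.1
        have h2 := hSmem m' hm'.1
        have h3 : J m = J m' := by rw [h1.1, h2.1, he]
        have h4 := hJ m (!b)
        have h5 := hJ m' (!b)
        rw [h3, h5, h1.2, h2.2] at h4
        have h6 : avec b m' (!b) = avec b m (!b) := by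
          have := congrArg (fun x => sg σ0 * x) h4
          simp only [← mul_assoc, sg_sq, one_mul] at this
          exact this
        have h7 : ∀ n, avec b n (!b) = ss n := by
          intro n
          cases b <;> simp [avec]
        rw [h7, h7] at h6
        exact (ss_injective h6).symm
      · exact Set.finite_Iio N
    have h1 : ∀ᶠ m in atTop, m ∉ {m | m ∈ S ∧ (J m).2.2.1 < N} := by
      rw [← Nat.cofinite_eq_atTop]
      exact hfin.compl_mem_cofinite
    filter_upwards [hSF, hFle h1] with m hm1 hm2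
    by_contra hcon
    exact hm2 ⟨hm1, by omega⟩
  have hav : ∀ b', Tendsto (fun m => sg σ0 * avec b m b') F
      (𝓝 (sg σ0 * (if b' = b then 1 else 0))) := fun b' =>
    ((avec_tendsto b b').mono_left hFle).const_mul _
  have heq : ∀ᶠ m in F, ∀ b', DD T (t, b0, (J m).2.2.1, i) b' = sg σ0 * avec b m b' := by
    filter_upwards [hSF] with m hm b'
    have h1 := hSmem m hm
    have h2 := hJ m b'
    rw [h1.1, h1.2] at h2
    exact h2
  cases t
  · exfalso
    have h1 : Tendsto (fun m => DD T (false, b0, (J m).2.2.1, i) b) F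
        (𝓝 (3 / 4 * DD T (true, !b0, 0, false) b)) := (DD_tendsto_false T b0 i b).comp hk
    have h2 := hav b
    have h3 : Tendsto (fun m => DD T (false, b0, (J m).2.2.1, i) b) F
        (𝓝 (sg σ0 * (if b = b then 1 else 0))) := by
      refine h2.congr' ?_
      filter_upwards [heq] with m hm
      exact (hm b).symm
    have h4 := tendsto_nhds_unique h1 h3
    rw [if_pos rfl, mul_one] at h4
    have h5 := DD_abs_le T (true, !b0, 0, false) b
    rw [abs_le] at h5
    cases σ0 <;> simp [sg] at h4 <;> linarith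
  · refine ⟨b0, i, σ0, fun m => (J m).2.2.1, F, hFne, hFle, hk, heq, fun b' => ?_⟩
    have h1 : Tendsto (fun m => DD T (true, b0, (J m).2.2.1, i) b') F
        (𝓝 (DD T (true, b0, 0, false) b')) := (DD_tendsto_true T b0 i b').comp hk
    have h3 : Tendsto (fun m => DD T (true, b0, (J m).2.2.1, i) b') F
        (𝓝 (sg σ0 * (if b' = b then 1 else 0))) := by
      refine (hav b').congr' ?_
      filter_upwards [heq] with m hm
      exact (hm b').symm
    exact tendsto_nhds_unique h1 h3

include T in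
theorem no_embed : False := by
  obtain ⟨p, i, σ, k, F, hne, hle, hk, heq, hlim⟩ := core T false
  obtain ⟨q, i', σ', k', F', hne', hle', hk', heq', hlim'⟩ := core T true
  have hsg : ∀ τ : Bool, sg τ ≠ 0 := by intro τ; cases τ <;> simp [sg]
  have hpq : q = !p := by
    by_contra hcon
    have : q = p := by
      cases p <;> cases q <;> simp_all
    subst this
    have h1 := hlim false
    have h2 := hlim' false
    simp only [if_true] at h1
    simp only [Bool.false_eq_true, if_false, mul_zero] at h2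
    rw [h1, mul_one] at h2
    exact hsg _ h2
  subst hpq
  -- the second coordinate
  have h1 : Tendsto (fun m => DD T (false, p, k m, i) true) F
      (𝓝 (3 / 4 * DD T (true, !p, 0, false) true)) := (DD_tendsto_false T p i true).comp hk
  have h2 := hlim' true
  simp only [if_true, mul_one] at h2
  rw [h2] at h1
  have h3 := h1.abs
  have h4 : |3 / 4 * sg σ'| = 3 / 4 := by
    rw [abs_mul]
    cases σ' <;> simp [sg] <;> norm_num
  rw [h4] at h3
  have h5 : ∀ᶠ m in F, |DD T (false, p, k m, i) true| ∈ Set.Ioo (0.6 : ℝ) 0.9 :=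
    h3.eventually (Ioo_mem_nhds (by norm_num) (by norm_num))
  have h6 : ∀ᶠ m in F, 2 ≤ k m := hk.eventually_ge_atTop 2
  have h7 : ∀ᶠ m in F, 2 ≤ m := hle (eventually_ge_atTop 2)
  obtain ⟨m, hm1, hm2, hm3, hm4⟩ := (h5.and (h6.and (h7.and heq))).exists
  have h8 := hm4 true
  have h9 := hlim true
  simp only [Bool.true_eq_false, if_false, mul_zero] at h9
  rw [DD_rel, h9, mul_zero, zero_add] at h8
  have h10 : avec false m true = ss m := by simp [avec]
  rw [h10] at h8
  have h11 : ss (k m) * |DD T (false, p, k m, i) true| = ss m := by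
    have := congrArg abs h8
    rw [abs_mul, abs_mul, abs_of_nonneg (ss_nonneg _), abs_of_nonneg (ss_nonneg _)] at this
    rw [this]
    cases σ <;> simp [sg]
  have h12 := ss_pos (by omega : 1 ≤ k m)
  rcases lt_or_ge (k m) m with hlt | hge
  · have h13 := ss_lt hm2 hlt
    rw [← h11] at h13
    have := hm1.1
    nlinarith
  · have h13 := ss_ge hm3 hge
    rw [← h11] at h13
    have := hm1.2
    nlinarith

end

end

end Pool.Agent.Lib.MP_ec292c_an
end
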